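import Pool.Agent.Zk27.MB.Cut

/-! Facts on the profiles (for the front lemma; helper20) -/

set_option autoImplicit false

open MeasureTheory Set
open scoped ContDiff

namespace Pool.Agent.Zk20.FR

open Pool.Agent.Zk27.MB

lemma eta_nonneg (s : ℝ) : 0 ≤ eta s :=
  mul_nonneg (Real.smoothTransition.nonneg _) (Real.smoothTransition.nonneg _)

lemma eta_le_one (s : ℝ) : eta s ≤ 1 :=
  mul_le_one₀ (Real.smoothTransition.le_one _) (Real.smoothTransition.nonneg _)
    (Real.smoothTransition.le_one _)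

lemma eta_one {s : ℝ} (h : |s| ≤ 1) : eta s = 1 := by
  obtain ⟨h1, h2⟩ := abs_le.mp h
  unfold eta
  rw [Real.smoothTransition.one_of_one_le (by linarith),
    Real.smoothTransition.one_of_one_le (by linarith), mul_one]

lemma eta_zero {s : ℝ} (h : 2 ≤ |s|) : eta s = 0 := by
  unfold eta
  rcases le_abs.mp h with h | h
  · rw [Real.smoothTransition.zero_of_nonpos (x := 2 - s) (by linarith), zero_mul]
  · rw [Real.smoothTransition.zero_of_nonpos (x := 2 + s) (by linarith), mul_zero]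

lemma mu_one {s : ℝ} (h : |s| ≤ 1) : mu s = s := by
  unfold mu; rw [eta_one h, mul_one]

lemma mu_zero {s : ℝ} (h : 2 ≤ |s|) : mu s = 0 := by
  unfold mu; rw [eta_zero h, mul_zero]

lemma abs_mu_le (s : ℝ) : |mu s| ≤ |s| := by
  unfold mu
  rw [abs_mul, abs_of_nonneg (eta_nonneg s)]
  exact mul_le_of_le_one_right (abs_nonneg s) (eta_le_one s)

lemma abs_mu_le_two (s : ℝ) : |mu s| ≤ 2 := by
  rcases le_total 2 |s| with h | h
  · rw [mu_zero h, abs_zero]; norm_num
  · exact (abs_mu_le s).trans h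

lemma contDiff_mu : ContDiff ℝ ∞ mu := by
  unfold mu eta
  fun_prop

lemma kap_one {s : ℝ} (h : |s| < 1) : kap s = 1 := by
  unfold kap
  have : mu =ᶠ[nhds s] id := by
    have h1 : {t : ℝ | |t| < 1} ∈ nhds s :=
      (isOpen_lt continuous_abs continuous_const).mem_nhds h
    filter_upwards [h1] with t ht
    exact mu_one (le_of_lt ht)
  rw [this.deriv_eq]
  simp

lemma kap_zero {s : ℝ} (h : 2 < |s|) : kap s = 0 := by
  unfold kap
  have : mu =ᶠ[nhds s] fun _ => 0 := by
    have h1 : {t : ℝ | 2 < |t|} ∈ nhds s :=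
      (isOpen_lt continuous_const continuous_abs).mem_nhds h
    filter_upwards [h1] with t ht
    exact mu_zero (le_of_lt ht)
  rw [this.deriv_eq]
  simp

lemma mu_lip {K : ℝ} (hK : ∀ s, |kap s| ≤ K) (a b : ℝ) : |mu a - mu b| ≤ K * |a - b| := by
  have := Convex.norm_image_sub_le_of_norm_deriv_le (f := mu) (C := K) (s := univ) (x := b) (y := a)
    (fun x _ => (contDiff_mu.differentiable (by simp)).differentiableAt) (fun x _ => hK x) convex_univ
    (mem_univ _) (mem_univ _)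
  simpa using this

lemma phi_nonneg (z : ℝ × ℝ) : 0 ≤ phi z := phiB.nonneg_normed z

lemma phi_cont : Continuous phi := phiB.continuous_normed

lemma phi_int : ∫ z, phi z = 1 := phiB.integral_normed

lemma phi_supp {z : ℝ × ℝ} (h : phi z ≠ 0) : 1 < z.1 ∧ z.1 < 3 / 2 ∧ |z.2| < 1 / 4 := by
  have h1 : z ∈ Function.support (phiB.normed volume) := h
  rw [phiB.support_normed_eq] at h1
  have h2 : dist z ((5 / 4, 0) : ℝ × ℝ) < 1 / 4 := h1
  rw [Prod.dist_eq, max_lt_iff, Real.dist_eq, Real.dist_eq] at h2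
  obtain ⟨h3, h4⟩ := h2
  simp only at h3 h4
  rw [abs_lt] at h3
  rw [sub_zero] at h4
  exact ⟨by linarith, by linarith, h4⟩

lemma phi_compact : HasCompactSupport phi := phiB.hasCompactSupport_normed

/-- the averaging function on the right half-plane -/
lemma ph_right (M k : ℕ) {z : ℝ × ℝ} (hz : 0 < z.1) :
    ph M k z = 4 ^ k * phi (2 ^ k * z.1, 2 ^ k * z.2) := by
  unfold ph cp
  rw [Finset.sum_eq_single_of_mem 0 (by simp)]
  · simp
  · intro j _ hj
    have : phi (2 ^ k * z.1 + 8 * j, 2 ^ k * z.2) = 0 := by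
      by_contra hne
      obtain ⟨-, h2, -⟩ := phi_supp hne
      simp only at h2
      have h3 : (1 : ℝ) ≤ j := by exact_mod_cast Nat.one_le_iff_ne_zero.mpr hj
      have h4 : 0 < 2 ^ k * z.1 := by positivity
      linarith
    rw [this, smul_zero]

lemma ph_compact (M k : ℕ) : HasCompactSupport (ph M k) := by
  have h2 : (0 : ℝ) < 2 ^ k := by positivity
  refine HasCompactSupport.intro (K := Icc (-(8 * (M : ℝ) + 2)) 2 ×ˢ Icc (-2) 2)
    (isCompact_Icc.prod isCompact_Icc) ?_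
  intro z hz
  unfold ph cp
  rw [Finset.sum_eq_zero, mul_zero]
  intro j hj
  have : phi (2 ^ k * z.1 + 8 * j, 2 ^ k * z.2) = 0 := by
    by_contra hne
    apply hz
    obtain ⟨h1, h2', h3⟩ := phi_supp hne
    simp only at h1 h2' h3
    have h3 := abs_lt.mp h3
    have hj' : (j : ℝ) ≤ M := by
      have := Finset.mem_range.mp hj
      exact_mod_cast Nat.lt_succ_iff.mp this
    have hk1 : (1 : ℝ) ≤ 2 ^ k := one_le_pow₀ (by norm_num)
    have hj0 : (0 : ℝ) ≤ j := by positivity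
    have hM0 : (0 : ℝ) ≤ M := by positivity
    refine ⟨⟨?_, ?_⟩, ⟨?_, ?_⟩⟩
    · by_contra hc
      push Not at hc
      have : 2 ^ k * z.1 ≤ 1 * z.1 := by
        apply mul_le_mul_of_nonpos_right hk1; linarith
      linarith
    · by_contra hc
      push Not at hc
      have : 1 * z.1 ≤ 2 ^ k * z.1 := mul_le_mul_of_nonneg_right hk1 (by linarith)
      linarith
    · by_contra hc
      push Not at hc
      have : 2 ^ k * z.2 ≤ 1 * z.2 := by
        apply mul_le_mul_of_nonpos_right hk1; linarith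
      linarith [h3.1]
    · by_contra hc
      push Not at hc
      have : 1 * z.2 ≤ 2 ^ k * z.2 := mul_le_mul_of_nonneg_right hk1 (by linarith)
      linarith [h3.2]
  rw [this, smul_zero]

lemma ph_cont (M k : ℕ) : Continuous (ph M k) := by
  unfold ph cp
  have := phi_cont
  fun_prop

/-- the integral of the rescaled bump -/
lemma phi_int_scaled (k : ℕ) : ∫ z : ℝ × ℝ, 4 ^ k * phi (2 ^ k * z.1, 2 ^ k * z.2) = 1 := by
  have h := MeasureTheory.Measure.integral_comp_smul (volume : Measure (ℝ × ℝ)) phi ((2 : ℝ) ^ k)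
  have e : (fun z : ℝ × ℝ => phi ((2 : ℝ) ^ k • z)) = fun z => phi (2 ^ k * z.1, 2 ^ k * z.2) := by
    funext z
    rfl
  rw [e, phi_int] at h
  rw [integral_const_mul, h]
  have h2 : Module.finrank ℝ (ℝ × ℝ) = 2 := by simp
  rw [h2]
  have h3 : ((2 : ℝ) ^ k) ^ 2 = 4 ^ k := by
    rw [← pow_mul, mul_comm, pow_mul]; norm_num
  rw [h3, abs_of_nonneg (by positivity)]
  simp

lemma phi_integrable_scaled (k : ℕ) :
    Integrable (fun z : ℝ × ℝ => 4 ^ k * phi (2 ^ k * z.1, 2 ^ k * z.2)) := by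
  by_contra h
  have := phi_int_scaled k
  rw [integral_undef h] at this
  exact one_ne_zero this.symm

/-- the planar field vanishes to first order on the line `x = 0` -/
lemma cp_fst_le (M k : ℕ) {K : ℝ} (hK : ∀ s, |kap s| ≤ K) (z : ℝ × ℝ) :
    |(cp M k V0 z).1| ≤ 2 ^ M * K ^ 2 * 2 ^ k * |z.1| := by
  have hK0 : 0 ≤ K := (abs_nonneg _).trans (hK 0)
  unfold cp
  rw [Prod.fst_sum]
  refine (Finset.abs_sum_le_sum_abs _ _).trans ?_
  have hterm : ∀ j ∈ Finset.range (M + 1),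
      |(((-1 : ℝ) ^ j * (M.choose j : ℝ)) • V0 (2 ^ k * z.1 + 8 * j, 2 ^ k * z.2)).1| ≤
        (M.choose j : ℝ) * (K ^ 2 * 2 ^ k * |z.1|) := by
    intro j _
    rw [Prod.smul_fst, smul_eq_mul, abs_mul, abs_mul, abs_pow, abs_neg, abs_one, one_pow, one_mul,
      abs_of_nonneg (by positivity : (0 : ℝ) ≤ (M.choose j : ℝ))]
    refine mul_le_mul_of_nonneg_left ?_ (by positivity)
    unfold V0
    simp only
    rw [abs_neg, abs_mul]
    have h0 : mu (8 * (j : ℝ)) = 0 := by
      rcases Nat.eq_zero_or_pos j with rfl | hj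
      · simp [mu]
      · apply mu_zero
        have : (1 : ℝ) ≤ j := by exact_mod_cast hj
        rw [abs_of_nonneg (by positivity)]
        linarith
    have h1 : |mu (2 ^ k * z.1 + 8 * j)| ≤ K * (2 ^ k * |z.1|) := by
      have := mu_lip hK (2 ^ k * z.1 + 8 * j) (8 * (j : ℝ))
      rw [h0, sub_zero, add_sub_cancel_right, abs_mul, abs_of_nonneg (by positivity : (0 : ℝ) ≤ 2 ^ k)] at this
      exact this
    calc |mu (2 ^ k * z.1 + 8 * j)| * |kap (2 ^ k * z.2)| ≤ K * (2 ^ k * |z.1|) * K :=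
          mul_le_mul h1 (hK _) (abs_nonneg _) (by positivity)
      _ = K ^ 2 * 2 ^ k * |z.1| := by ring
  refine (Finset.sum_le_sum hterm).trans ?_
  rw [← Finset.sum_mul]
  have : ∑ j ∈ Finset.range (M + 1), (M.choose j : ℝ) = 2 ^ M := by
    exact_mod_cast Nat.sum_range_choose M
  rw [this]
  apply le_of_eq; ring

/-- a global bound -/
lemma cp_norm_le (M k : ℕ) {K : ℝ} (hK : ∀ s, |kap s| ≤ K) (z : ℝ × ℝ) :
    ‖cp M k V0 z‖ ≤ 2 ^ M * (2 * K) := by
  have hK0 : 0 ≤ K := (abs_nonneg _).trans (hK 0)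
  unfold cp
  refine (norm_sum_le _ _).trans ?_
  have hterm : ∀ j ∈ Finset.range (M + 1),
      ‖((-1 : ℝ) ^ j * (M.choose j : ℝ)) • V0 (2 ^ k * z.1 + 8 * j, 2 ^ k * z.2)‖ ≤
        (M.choose j : ℝ) * (2 * K) := by
    intro j _
    rw [norm_smul, Real.norm_eq_abs, abs_mul, abs_pow, abs_neg, abs_one, one_pow, one_mul,
      abs_of_nonneg (by positivity : (0 : ℝ) ≤ (M.choose j : ℝ))]
    refine mul_le_mul_of_nonneg_left ?_ (by positivity)
    unfold V0
    rw [Prod.norm_def, max_le_iff]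
    simp only [Real.norm_eq_abs]
    constructor
    · rw [abs_neg, abs_mul]
      exact mul_le_mul (abs_mu_le_two _) (hK _) (abs_nonneg _) (by norm_num)
    · rw [abs_mul, mul_comm 2 K]
      exact mul_le_mul (hK _) (abs_mu_le_two _) (abs_nonneg _) hK0
  refine (Finset.sum_le_sum hterm).trans ?_
  rw [← Finset.sum_mul]
  have : ∑ j ∈ Finset.range (M + 1), (M.choose j : ℝ) = 2 ^ M := by
    exact_mod_cast Nat.sum_range_choose M
  rw [this]

/-- on the right half-plane only the copy `j = 0` counts -/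
lemma cp_right (M k : ℕ) {z : ℝ × ℝ} (hz : 0 < z.1) :
    cp M k V0 z = V0 (2 ^ k * z.1, 2 ^ k * z.2) := by
  unfold cp
  rw [Finset.sum_eq_single_of_mem 0 (by simp)]
  · simp
  · intro j _ hj
    have h3 : (1 : ℝ) ≤ j := by exact_mod_cast Nat.one_le_iff_ne_zero.mpr hj
    have h4 : 0 < 2 ^ k * z.1 := by positivity
    have h5 : 2 < |2 ^ k * z.1 + 8 * j| := by
      rw [abs_of_nonneg (by positivity)]; linarith
    have : V0 (2 ^ k * z.1 + 8 * j, 2 ^ k * z.2) = 0 := by
      unfold V0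
      rw [mu_zero h5.le, kap_zero h5]
      simp
    rw [this, smul_zero]

/-- the initial datum -/
lemma exists_w (r₀ : ℝ) (hr : 0 < r₀) : ∃ w₀ : ℝ × ℝ → ℝ, ContDiff ℝ ∞ w₀ ∧
    (∀ z, 0 ≤ w₀ z ∧ w₀ z ≤ 1) ∧ (∀ z, w₀ z ≠ 0 → r₀ ≤ z.1 ∧ z.1 < 1 ∧ |z.2| < 1) ∧
    ∀ z, 2 * r₀ ≤ z.1 → z.1 ≤ 1 / 2 → |z.2| ≤ 1 / 2 → w₀ z = 1 := by
  refine ⟨fun z => (Real.smoothTransition (r₀⁻¹ * z.1 - 1) * Real.smoothTransition (2 * (1 - z.1))) *
    (Real.smoothTransition (2 * (1 - z.2)) * Real.smoothTransition (2 * (1 + z.2))), by fun_prop, ?_, ?_, ?_⟩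
  · intro z
    have n := Real.smoothTransition.nonneg
    have l := Real.smoothTransition.le_one
    exact ⟨mul_nonneg (mul_nonneg (n _) (n _)) (mul_nonneg (n _) (n _)),
      mul_le_one₀ (mul_le_one₀ (l _) (n _) (l _)) (mul_nonneg (n _) (n _))
        (mul_le_one₀ (l _) (n _) (l _))⟩
  · intro z hz
    simp only [ne_eq, mul_eq_zero, not_or] at hz
    obtain ⟨⟨h1, h2⟩, h3, h4⟩ := hz
    have k1 : 0 < r₀⁻¹ * z.1 - 1 := by
      by_contra hc; exact h1 (Real.smoothTransition.zero_of_nonpos (not_lt.mp hc))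
    have k2 : 0 < 2 * (1 - z.1) := by
      by_contra hc; exact h2 (Real.smoothTransition.zero_of_nonpos (not_lt.mp hc))
    have k3 : 0 < 2 * (1 - z.2) := by
      by_contra hc; exact h3 (Real.smoothTransition.zero_of_nonpos (not_lt.mp hc))
    have k4 : 0 < 2 * (1 + z.2) := by
      by_contra hc; exact h4 (Real.smoothTransition.zero_of_nonpos (not_lt.mp hc))
    refine ⟨?_, by linarith, abs_lt.mpr ⟨by linarith, by linarith⟩⟩
    have : 1 < z.1 / r₀ := by rw [div_eq_inv_mul]; linarith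
    rw [lt_div_iff₀ hr] at this
    linarith
  · intro z h1 h2 h3
    obtain ⟨h4, h5⟩ := abs_le.mp h3
    have k1 : 1 ≤ r₀⁻¹ * z.1 - 1 := by
      have : 2 ≤ z.1 / r₀ := by rw [le_div_iff₀ hr]; exact h1
      rw [div_eq_inv_mul] at this
      linarith
    beta_reduce
    rw [Real.smoothTransition.one_of_one_le k1,
      Real.smoothTransition.one_of_one_le (x := 2 * (1 - z.1)) (by linarith),
      Real.smoothTransition.one_of_one_le (x := 2 * (1 - z.2)) (by linarith),
      Real.smoothTransition.one_of_one_le (x := 2 * (1 + z.2)) (by linarith)]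
    norm_num

end Pool.Agent.Zk20.FR
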