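import Pool.Agent.Zk20.FR.A

/-! Facts on the flow (for the front lemma; helper20) -/

set_option autoImplicit false

open MeasureTheory Set
open scoped ContDiff

namespace Pool.Agent.Zk20.FR

open Pool.Agent.Zk27.MB

/-- The averages. -/
noncomputable def cc (M : ℕ) (w₀ : ℝ × ℝ → ℝ) (Y : ℝ → ℝ × ℝ → ℝ × ℝ) (k : ℕ) (t : ℝ) : ℝ :=
  ∫ x, ph M k x * w₀ (Y t x)

section

variable {M n₀ N : ℕ} {α q : ℝ} {w₀ : ℝ × ℝ → ℝ} {Z Y : ℝ → ℝ × ℝ → ℝ × ℝ}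

lemma ode_fst (hF : IsFlow (Finset.Icc n₀ N) (Xf M α q) (ph M) w₀ Z Y) (t : ℝ) (p : ℝ × ℝ) :
    HasDerivAt (fun t => (Z t p).1)
      (∑ k ∈ Finset.Icc n₀ N, cc M w₀ Y k t * (Xf M α q k (Z t p)).1) t := by
  have h := (ContinuousLinearMap.fst ℝ ℝ ℝ).hasFDerivAt.comp_hasDerivAt t (hF.ode t p)
  have e : (ContinuousLinearMap.fst ℝ ℝ ℝ) (∑ k ∈ Finset.Icc n₀ N, (∫ x, ph M k x * w₀ (Y t x)) •
      Xf M α q k (Z t p)) = ∑ k ∈ Finset.Icc n₀ N, cc M w₀ Y k t * (Xf M α q k (Z t p)).1 := by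
    rw [map_sum]
    rfl
  rw [e] at h
  exact h

lemma ode_snd (hF : IsFlow (Finset.Icc n₀ N) (Xf M α q) (ph M) w₀ Z Y) (t : ℝ) (p : ℝ × ℝ) :
    HasDerivAt (fun t => (Z t p).2)
      (∑ k ∈ Finset.Icc n₀ N, cc M w₀ Y k t * (Xf M α q k (Z t p)).2) t := by
  have h := (ContinuousLinearMap.snd ℝ ℝ ℝ).hasFDerivAt.comp_hasDerivAt t (hF.ode t p)
  have e : (ContinuousLinearMap.snd ℝ ℝ ℝ) (∑ k ∈ Finset.Icc n₀ N, (∫ x, ph M k x * w₀ (Y t x)) •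
      Xf M α q k (Z t p)) = ∑ k ∈ Finset.Icc n₀ N, cc M w₀ Y k t * (Xf M α q k (Z t p)).2 := by
    rw [map_sum]
    rfl
  rw [e] at h
  exact h

lemma cc_bound (h01 : ∀ z, 0 ≤ w₀ z ∧ w₀ z ≤ 1) (k : ℕ) (t : ℝ) :
    |cc M w₀ Y k t| ≤ ∫ x, |ph M k x| := by
  have hi : Integrable (fun x => |ph M k x|) :=
    ((ph_cont M k).integrable_of_hasCompactSupport (ph_compact M k)).abs
  have hgoal : ‖∫ x, ph M k x * w₀ (Y t x)‖ ≤ ∫ x, |ph M k x| := by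
    refine norm_integral_le_of_norm_le hi (Filter.Eventually.of_forall fun x => ?_)
    rw [Real.norm_eq_abs, abs_mul]
    have : |w₀ (Y t x)| ≤ 1 := by
      rw [abs_of_nonneg (h01 _).1]; exact (h01 _).2
    exact mul_le_of_le_one_right (abs_nonneg _) this
  exact hgoal

/-- the right half-plane is invariant -/
lemma pos (hα : 0 ≤ α) (hq : 0 ≤ q) {K : ℝ} (hK : ∀ s, |kap s| ≤ K) (h01 : ∀ z, 0 ≤ w₀ z ∧ w₀ z ≤ 1)
    (hF : IsFlow (Finset.Icc n₀ N) (Xf M α q) (ph M) w₀ Z Y) {p : ℝ × ℝ} (hp : 0 < p.1) {t : ℝ}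
    (ht : 0 ≤ t) : 0 < (Z t p).1 := by
  have hK0 : 0 ≤ K := (abs_nonneg _).trans (hK 0)
  set L : ℝ := ∑ k ∈ Finset.Icc n₀ N, (∫ x, |ph M k x|) *
    (α * q ^ k * (1 / 2) ^ k * (2 ^ M * K ^ 2 * 2 ^ k)) with hL
  set x : ℝ → ℝ := fun t => (Z t p).1 with hx
  set x' : ℝ → ℝ := fun t => ∑ k ∈ Finset.Icc n₀ N, cc M w₀ Y k t * (Xf M α q k (Z t p)).1 with hx'
  have hder : ∀ t, HasDerivAt x (x' t) t := fun t => ode_fst hF t p
  have hbd : ∀ t, |x' t| ≤ L * |x t| := by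
    intro t
    rw [hx', hL, Finset.sum_mul]
    refine (Finset.abs_sum_le_sum_abs _ _).trans (Finset.sum_le_sum fun k _ => ?_)
    rw [abs_mul, mul_assoc]
    refine mul_le_mul (cc_bound h01 k t) ?_ (abs_nonneg _) (integral_nonneg fun _ => abs_nonneg _)
    unfold Xf
    rw [Prod.smul_fst, smul_eq_mul, abs_mul, abs_of_nonneg (by positivity : 0 ≤ α * q ^ k * (1 / 2) ^ k)]
    calc α * q ^ k * (1 / 2) ^ k * |(cp M k V0 (Z t p)).1| ≤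
          α * q ^ k * (1 / 2) ^ k * (2 ^ M * K ^ 2 * 2 ^ k * |(Z t p).1|) :=
          mul_le_mul_of_nonneg_left (cp_fst_le M k hK _) (by positivity)
      _ = α * q ^ k * (1 / 2) ^ k * (2 ^ M * K ^ 2 * 2 ^ k) * |x t| := by rw [hx]; ring
  have hmono : Monotone (fun t => x t ^ 2 * Real.exp (2 * L * t)) := by
    have hd : ∀ t, HasDerivAt (fun t => x t ^ 2 * Real.exp (2 * L * t))
        (2 * x t * x' t * Real.exp (2 * L * t) + x t ^ 2 * (Real.exp (2 * L * t) * (2 * L))) t := by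
      intro t
      have h1 : HasDerivAt (fun t => x t ^ 2) (2 * x t * x' t) t := by
        have h9 := (hder t).fun_pow 2
        simpa using h9
      have h2 : HasDerivAt (fun t => Real.exp (2 * L * t)) (Real.exp (2 * L * t) * (2 * L)) t := by
        have h3 : HasDerivAt (fun t : ℝ => 2 * L * t) (2 * L) t := by
          simpa using (hasDerivAt_id t).const_mul (2 * L)
        exact h3.exp
      exact h1.mul h2
    refine monotone_of_deriv_nonneg (fun t => (hd t).differentiableAt) fun t => ?_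
    rw [(hd t).deriv]
    have h1 : -(L * |x t|) ≤ x' t ∧ x' t ≤ L * |x t| := abs_le.mp (hbd t)
    have h2 : 0 ≤ 2 * x t * x' t + x t ^ 2 * (2 * L) := by
      rcases le_total 0 (x t) with h | h
      · rw [abs_of_nonneg h] at h1
        nlinarith only [h1.1, h]
      · rw [abs_of_nonpos h] at h1
        nlinarith only [h1.2, h]
    have h3 := (Real.exp_pos (2 * L * t)).le
    have : 2 * x t * x' t * Real.exp (2 * L * t) + x t ^ 2 * (Real.exp (2 * L * t) * (2 * L)) =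
        (2 * x t * x' t + x t ^ 2 * (2 * L)) * Real.exp (2 * L * t) := by ring
    rw [this]
    exact mul_nonneg h2 h3
  by_contra hcon
  push Not at hcon
  have hx0 : 0 < x 0 := by
    rw [hx]; simp only; rw [hF.zero]; exact hp
  have hcont : ContinuousOn x (Icc 0 t) := fun s _ => (hder s).continuousAt.continuousWithinAt
  obtain ⟨t1, ht1, h1⟩ := intermediate_value_Icc' ht hcont ⟨hcon, hx0.le⟩
  have := hmono ht1.1
  simp only [h1] at this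
  have h2 : 0 < x 0 ^ 2 * Real.exp (2 * L * 0) := by positivity
  simp only [ne_eq, OfNat.ofNat_ne_zero, not_false_eq_true, zero_pow, zero_mul] at this
  linarith

/-- no mass on the left -/
lemma w_left (hα : 0 ≤ α) (hq : 0 ≤ q) {K : ℝ} (hK : ∀ s, |kap s| ≤ K)
    (h01 : ∀ z, 0 ≤ w₀ z ∧ w₀ z ≤ 1) {r₀ : ℝ} (hr : 0 < r₀) (hs : ∀ z, w₀ z ≠ 0 → r₀ ≤ z.1)
    (hF : IsFlow (Finset.Icc n₀ N) (Xf M α q) (ph M) w₀ Z Y) {z : ℝ × ℝ} (hz : z.1 ≤ 0) {t : ℝ}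
    (ht : 0 ≤ t) : w₀ (Y t z) = 0 := by
  by_contra hne
  have h1 := hs _ hne
  have h2 := pos hα hq hK h01 hF (p := Y t z) (by linarith) ht
  rw [hF.left] at h2
  linarith

lemma cc_eq (hα : 0 ≤ α) (hq : 0 ≤ q) {K : ℝ} (hK : ∀ s, |kap s| ≤ K)
    (h01 : ∀ z, 0 ≤ w₀ z ∧ w₀ z ≤ 1) {r₀ : ℝ} (hr : 0 < r₀) (hs : ∀ z, w₀ z ≠ 0 → r₀ ≤ z.1)
    (hF : IsFlow (Finset.Icc n₀ N) (Xf M α q) (ph M) w₀ Z Y) (k : ℕ) {t : ℝ} (ht : 0 ≤ t) :
    cc M w₀ Y k t = ∫ z : ℝ × ℝ, 4 ^ k * phi (2 ^ k * z.1, 2 ^ k * z.2) * w₀ (Y t z) := by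
  unfold cc
  congr 1
  funext z
  rcases le_or_gt z.1 0 with h | h
  · rw [w_left hα hq hK h01 hr hs hF h ht, mul_zero, mul_zero]
  · rw [ph_right M k h]

lemma cc_nonneg (hα : 0 ≤ α) (hq : 0 ≤ q) {K : ℝ} (hK : ∀ s, |kap s| ≤ K)
    (h01 : ∀ z, 0 ≤ w₀ z ∧ w₀ z ≤ 1) {r₀ : ℝ} (hr : 0 < r₀) (hs : ∀ z, w₀ z ≠ 0 → r₀ ≤ z.1)
    (hF : IsFlow (Finset.Icc n₀ N) (Xf M α q) (ph M) w₀ Z Y) (k : ℕ) {t : ℝ} (ht : 0 ≤ t) :
    0 ≤ cc M w₀ Y k t := by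
  rw [cc_eq hα hq hK h01 hr hs hF k ht]
  exact integral_nonneg fun z => mul_nonneg (mul_nonneg (by positivity) (phi_nonneg _)) (h01 _).1

lemma cc_le_one (hα : 0 ≤ α) (hq : 0 ≤ q) {K : ℝ} (hK : ∀ s, |kap s| ≤ K)
    (h01 : ∀ z, 0 ≤ w₀ z ∧ w₀ z ≤ 1) {r₀ : ℝ} (hr : 0 < r₀) (hs : ∀ z, w₀ z ≠ 0 → r₀ ≤ z.1)
    (hF : IsFlow (Finset.Icc n₀ N) (Xf M α q) (ph M) w₀ Z Y) (k : ℕ) {t : ℝ} (ht : 0 ≤ t) :
    cc M w₀ Y k t ≤ 1 := by
  rw [cc_eq hα hq hK h01 hr hs hF k ht, ← phi_int_scaled k]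
  refine integral_mono_of_nonneg (Filter.Eventually.of_forall fun z => ?_) (phi_integrable_scaled k)
    (Filter.Eventually.of_forall fun z => ?_)
  · exact mul_nonneg (mul_nonneg (by positivity) (phi_nonneg _)) (h01 _).1
  · exact mul_le_of_le_one_right (mul_nonneg (by positivity) (phi_nonneg _)) (h01 _).2

lemma cc_one (hα : 0 ≤ α) (hq : 0 ≤ q) {K : ℝ} (hK : ∀ s, |kap s| ≤ K)
    (h01 : ∀ z, 0 ≤ w₀ z ∧ w₀ z ≤ 1) {r₀ : ℝ} (hr : 0 < r₀) (hs : ∀ z, w₀ z ≠ 0 → r₀ ≤ z.1)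
    (hF : IsFlow (Finset.Icc n₀ N) (Xf M α q) (ph M) w₀ Z Y) (k : ℕ) {t : ℝ} (ht : 0 ≤ t)
    (h : ∀ z : ℝ × ℝ, 1 < 2 ^ k * z.1 → 2 ^ k * z.1 < 3 / 2 → |2 ^ k * z.2| < 1 / 4 →
      w₀ (Y t z) = 1) : cc M w₀ Y k t = 1 := by
  rw [cc_eq hα hq hK h01 hr hs hF k ht, ← phi_int_scaled k]
  congr 1
  funext z
  by_cases hp : phi (2 ^ k * z.1, 2 ^ k * z.2) = 0
  · rw [hp]; ring
  · obtain ⟨h1, h2, h3⟩ := phi_supp hp
    rw [h z h1 h2 h3, mul_one]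

/-- displacement -/
lemma displacement (hα : 0 ≤ α) (hq : 0 ≤ q) (hq2 : q < 2) {K : ℝ} (hK : ∀ s, |kap s| ≤ K)
    (h01 : ∀ z, 0 ≤ w₀ z ∧ w₀ z ≤ 1) {r₀ : ℝ} (hr : 0 < r₀) (hs : ∀ z, w₀ z ≠ 0 → r₀ ≤ z.1)
    (hF : IsFlow (Finset.Icc n₀ N) (Xf M α q) (ph M) w₀ Z Y) (p : ℝ × ℝ) {s : ℝ} (h0 : 0 ≤ s) :
    ‖Z s p - p‖ ≤ α * (2 ^ M * (2 * K)) * (1 - q / 2)⁻¹ * s := by
  have hK0 : 0 ≤ K := (abs_nonneg _).trans (hK 0)
  have key := Convex.norm_image_sub_le_of_norm_hasDerivWithin_le (f := fun t => Z t p)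
    (f' := fun t => ∑ k ∈ Finset.Icc n₀ N, (∫ x, ph M k x * w₀ (Y t x)) • Xf M α q k (Z t p))
    (C := α * (2 ^ M * (2 * K)) * (1 - q / 2)⁻¹) (s := Icc 0 s) (x := 0) (y := s)
    (fun t _ => (hF.ode t p).hasDerivWithinAt) ?_ (convex_Icc 0 s) ⟨le_rfl, h0⟩ ⟨h0, le_rfl⟩
  · simp only [hF.zero, sub_zero, Real.norm_eq_abs, abs_of_nonneg h0] at key
    exact key
  · intro t ht
    refine (norm_sum_le _ _).trans ?_
    have hterm : ∀ k ∈ Finset.Icc n₀ N, ‖(∫ x, ph M k x * w₀ (Y t x)) • Xf M α q k (Z t p)‖ ≤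
        α * (2 ^ M * (2 * K)) * (q / 2) ^ k := by
      intro k _
      rw [norm_smul]
      have h1 : ‖∫ x, ph M k x * w₀ (Y t x)‖ ≤ 1 := by
        rw [Real.norm_eq_abs]
        show |cc M w₀ Y k t| ≤ 1
        rw [abs_of_nonneg (cc_nonneg hα hq hK h01 hr hs hF k ht.1)]
        exact cc_le_one hα hq hK h01 hr hs hF k ht.1
      have h2 : ‖Xf M α q k (Z t p)‖ ≤ α * (2 ^ M * (2 * K)) * (q / 2) ^ k := by
        unfold Xf
        rw [norm_smul, Real.norm_eq_abs, abs_of_nonneg (by positivity)]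
        calc α * q ^ k * (1 / 2) ^ k * ‖cp M k V0 (Z t p)‖ ≤
              α * q ^ k * (1 / 2) ^ k * (2 ^ M * (2 * K)) :=
              mul_le_mul_of_nonneg_left (cp_norm_le M k hK _) (by positivity)
          _ = α * (2 ^ M * (2 * K)) * (q / 2) ^ k := by
              rw [div_pow, div_pow, one_pow]; ring
      calc _ ≤ 1 * (α * (2 ^ M * (2 * K)) * (q / 2) ^ k) :=
            mul_le_mul h1 h2 (norm_nonneg _) (by norm_num)
        _ = _ := one_mul _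
    refine (Finset.sum_le_sum hterm).trans ?_
    rw [← Finset.mul_sum]
    refine mul_le_mul_of_nonneg_left ?_ (by positivity)
    have hsum : Summable (fun k : ℕ => (q / 2) ^ k) :=
      summable_geometric_of_lt_one (by positivity) (by linarith)
    refine (hsum.sum_le_tsum _ (fun k _ => by positivity)).trans ?_
    rw [tsum_geometric_of_lt_one (by positivity) (by linarith)]

end

end Pool.Agent.Zk20.FR
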