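import Pool.Agent.Zk20.FR.B

/-! The field in a strip and trajectories through a strip (for the front lemma; helper20) -/

set_option autoImplicit false

open MeasureTheory Set
open scoped ContDiff

namespace Pool.Agent.Zk20.FR

open Pool.Agent.Zk27.MB

/-- the weights of the scales in the strip number `n` -/
noncomputable def gg (K q : ℝ) (n k : ℕ) : ℝ :=
  if k ≤ n then q ^ k else if k ≤ n + 2 then -(K * q ^ k) else 0

lemma sum_gg {K q : ℝ} (hK0 : 0 ≤ K) (hq1 : 1 < q) (hqK : 2 * (K * (1 + q) + 1) ≤ 1 / (q - 1))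
    {n₀ n N : ℕ} (hn : n₀ ≤ n) (hN : n ≤ N) (hbig : 2 * q ^ n₀ ≤ q ^ (n + 1)) :
    q ^ n ≤ ∑ k ∈ Finset.Icc n₀ N, gg K q n k := by
  have hq0 : 0 < q := by linarith
  have e1 : ∀ k ∈ Finset.Icc n₀ N, (if k ≤ n then q ^ k else 0) - (if k = n + 1 then K * q ^ k else 0)
      - (if k = n + 2 then K * q ^ k else 0) ≤ gg K q n k := by
    intro k _
    unfold gg
    have hKk : 0 ≤ K * q ^ k := by positivity
    split_ifs <;> first | (exfalso; omega) | linarith
  refine le_trans ?_ (Finset.sum_le_sum e1)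
  rw [Finset.sum_sub_distrib, Finset.sum_sub_distrib]
  have s1 : ∑ k ∈ Finset.Icc n₀ N, (if k ≤ n then q ^ k else 0) = (q ^ (n + 1) - q ^ n₀) / (q - 1) := by
    rw [← Finset.sum_filter]
    have : (Finset.Icc n₀ N).filter (fun k => k ≤ n) = Finset.Ico n₀ (n + 1) := by
      ext k
      simp only [Finset.mem_filter, Finset.mem_Icc, Finset.mem_Ico]
      omega
    rw [this, geom_sum_Ico (by linarith) (by omega)]
  have s2 : ∀ m : ℕ, ∑ k ∈ Finset.Icc n₀ N, (if k = m then K * q ^ k else 0) ≤ K * q ^ m := by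
    intro m
    rw [Finset.sum_ite_eq' (Finset.Icc n₀ N) m]
    split_ifs
    · exact le_rfl
    · positivity
  rw [s1]
  have h1 := s2 (n + 1)
  have h2 := s2 (n + 2)
  have hq10 : 0 < q - 1 := by linarith
  have hP : 0 < q ^ (n + 1) := by positivity
  have h3 : q ^ (n + 1) / 2 / (q - 1) ≤ (q ^ (n + 1) - q ^ n₀) / (q - 1) :=
    div_le_div_of_nonneg_right (by linarith) hq10.le
  have h4 : q ^ (n + 1) * (K * (1 + q) + 1) ≤ q ^ (n + 1) / 2 / (q - 1) := by
    have : q ^ (n + 1) / 2 / (q - 1) = q ^ (n + 1) / 2 * (1 / (q - 1)) := by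
      rw [mul_one_div]
    rw [this]
    calc q ^ (n + 1) * (K * (1 + q) + 1) = q ^ (n + 1) / 2 * (2 * (K * (1 + q) + 1)) := by ring
      _ ≤ _ := mul_le_mul_of_nonneg_left hqK (by positivity)
  have h5 : q ^ n ≤ q ^ (n + 1) := pow_le_pow_right₀ hq1.le (by omega)
  have h6 : q ^ (n + 2) = q ^ (n + 1) * q := by ring
  rw [h6] at h2
  have e9 : q ^ (n + 1) * (K * (1 + q) + 1) = K * q ^ (n + 1) + K * (q ^ (n + 1) * q) + q ^ (n + 1) := by
    ring
  linarith

section

variable {M n₀ N : ℕ} {α q : ℝ}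

lemma half_pow_mul (k : ℕ) : ((1 : ℝ) / 2) ^ k * 2 ^ k = 1 := by
  rw [← mul_pow]; norm_num

/-- each term of the field in the strip -/
lemma term_strip (hα : 0 ≤ α) (hq : 0 ≤ q) {K : ℝ} (hK : ∀ s, |kap s| ≤ K) {n k : ℕ} {c : ℝ}
    (hc0 : 0 ≤ c) (hc1 : c ≤ 1) (hc : k ≤ n → c = 1) {z : ℝ × ℝ} (h1 : (1 / 4) * (1 / 2) ^ n < z.1)
    (h2 : z.1 < (1 / 2) ^ n) (h3 : |z.2| < z.1) :
    c * (Xf M α q k z).1 ≤ -(α * gg K q n k * z.1) ∧
      α * gg K q n k * z.2 ^ 2 ≤ z.2 * (c * (Xf M α q k z).2) := by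
  have hK0 : 0 ≤ K := (abs_nonneg _).trans (hK 0)
  have hz : 0 < z.1 := lt_trans (by positivity) h1
  have h2k : (0 : ℝ) < 2 ^ k := by positivity
  have hhk : (0 : ℝ) < (1 / 2) ^ k := by positivity
  have hX : Xf M α q k z = (α * q ^ k * (1 / 2) ^ k) • V0 (2 ^ k * z.1, 2 ^ k * z.2) := by
    unfold Xf; rw [cp_right M k hz]
  have hX1 : (Xf M α q k z).1 = α * q ^ k * (1 / 2) ^ k * (-(mu (2 ^ k * z.1) * kap (2 ^ k * z.2))) := by
    rw [hX]; rfl
  have hX2 : (Xf M α q k z).2 = α * q ^ k * (1 / 2) ^ k * (kap (2 ^ k * z.1) * mu (2 ^ k * z.2)) := by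
    rw [hX]; rfl
  have hhalf := half_pow_mul k
  unfold gg
  rcases le_or_gt k n with hkn | hkn
  · rw [if_pos hkn, hc hkn, one_mul, one_mul, hX1, hX2]
    have hsm : 2 ^ k * z.1 < 1 := by
      have : (2 : ℝ) ^ k * (1 / 2) ^ n ≤ 1 := by
        calc (2 : ℝ) ^ k * (1 / 2) ^ n ≤ 2 ^ k * (1 / 2) ^ k :=
              mul_le_mul_of_nonneg_left (pow_le_pow_of_le_one (by norm_num) (by norm_num) hkn) h2k.le
          _ = 1 := by rw [mul_comm]; exact hhalf
      calc 2 ^ k * z.1 < 2 ^ k * (1 / 2) ^ n := mul_lt_mul_of_pos_left h2 h2k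
        _ ≤ 1 := this
    have a1 : |2 ^ k * z.1| < 1 := by rw [abs_of_pos (by positivity)]; exact hsm
    have a2 : |2 ^ k * z.2| < 1 := by
      rw [abs_mul, abs_of_pos h2k]
      exact lt_trans (mul_lt_mul_of_pos_left h3 h2k) hsm
    rw [mu_one a1.le, mu_one a2.le, kap_one a1, kap_one a2]
    constructor
    · apply le_of_eq
      calc α * q ^ k * (1 / 2) ^ k * -(2 ^ k * z.1 * 1) = -(α * q ^ k * z.1) * ((1 / 2) ^ k * 2 ^ k) := by ring
        _ = -(α * q ^ k * z.1) := by rw [hhalf, mul_one]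
    · apply le_of_eq
      calc α * q ^ k * z.2 ^ 2 = α * q ^ k * z.2 ^ 2 * ((1 / 2) ^ k * 2 ^ k) := by rw [hhalf, mul_one]
        _ = z.2 * (α * q ^ k * (1 / 2) ^ k * (1 * (2 ^ k * z.2))) := by ring
  · rw [if_neg (by omega)]
    rcases le_or_gt k (n + 2) with hk2 | hk2
    · rw [if_pos hk2, hX1, hX2]
      have b1 : |mu (2 ^ k * z.1) * kap (2 ^ k * z.2)| ≤ 2 ^ k * z.1 * K := by
        rw [abs_mul]
        refine mul_le_mul ?_ (hK _) (abs_nonneg _) (by positivity)
        refine (abs_mu_le _).trans (le_of_eq ?_)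
        rw [abs_of_pos (by positivity)]
      have b2 : |z.2 * (kap (2 ^ k * z.1) * mu (2 ^ k * z.2))| ≤ 2 ^ k * z.2 ^ 2 * K := by
        rw [abs_mul, abs_mul]
        have c1 : |mu (2 ^ k * z.2)| ≤ 2 ^ k * |z.2| := by
          refine (abs_mu_le _).trans (le_of_eq ?_)
          rw [abs_mul, abs_of_pos h2k]
        calc |z.2| * (|kap (2 ^ k * z.1)| * |mu (2 ^ k * z.2)|) ≤ |z.2| * (K * (2 ^ k * |z.2|)) := by
              refine mul_le_mul_of_nonneg_left ?_ (abs_nonneg _)
              exact mul_le_mul (hK _) c1 (abs_nonneg _) hK0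
          _ = 2 ^ k * |z.2| ^ 2 * K := by ring
          _ = 2 ^ k * z.2 ^ 2 * K := by rw [sq_abs]
      have d1 := (abs_le.mp b1).1
      have d2 := (abs_le.mp b2).1
      have hA : 0 ≤ α * q ^ k * (1 / 2) ^ k := by positivity
      constructor
      · calc c * (α * q ^ k * (1 / 2) ^ k * -(mu (2 ^ k * z.1) * kap (2 ^ k * z.2))) =
              (α * q ^ k * (1 / 2) ^ k) * (c * -(mu (2 ^ k * z.1) * kap (2 ^ k * z.2))) := by ring
          _ ≤ (α * q ^ k * (1 / 2) ^ k) * (2 ^ k * z.1 * K) := by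
              refine mul_le_mul_of_nonneg_left ?_ hA
              calc c * -(mu (2 ^ k * z.1) * kap (2 ^ k * z.2)) ≤ c * (2 ^ k * z.1 * K) :=
                    mul_le_mul_of_nonneg_left (by linarith) hc0
                _ ≤ 1 * (2 ^ k * z.1 * K) := mul_le_mul_of_nonneg_right hc1 (by positivity)
                _ = _ := one_mul _
          _ = α * q ^ k * z.1 * K * ((1 / 2) ^ k * 2 ^ k) := by ring
          _ = -(α * -(K * q ^ k) * z.1) := by rw [hhalf]; ring
      · have : -(2 ^ k * z.2 ^ 2 * K) ≤ c * (z.2 * (kap (2 ^ k * z.1) * mu (2 ^ k * z.2))) := by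
          have e0 : 0 ≤ 2 ^ k * z.2 ^ 2 * K := by positivity
          calc -(2 ^ k * z.2 ^ 2 * K) ≤ c * (-(2 ^ k * z.2 ^ 2 * K)) := by
                nlinarith only [hc0, hc1, e0]
            _ ≤ _ := mul_le_mul_of_nonneg_left d2 hc0
        calc α * -(K * q ^ k) * z.2 ^ 2 = (α * q ^ k * (1 / 2) ^ k) * (-(2 ^ k * z.2 ^ 2 * K)) := by
              have : (α * q ^ k * (1 / 2) ^ k) * (-(2 ^ k * z.2 ^ 2 * K)) =
                α * -(K * q ^ k) * z.2 ^ 2 * ((1 / 2) ^ k * 2 ^ k) := by ring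
              rw [this, hhalf, mul_one]
          _ ≤ (α * q ^ k * (1 / 2) ^ k) * (c * (z.2 * (kap (2 ^ k * z.1) * mu (2 ^ k * z.2)))) :=
              mul_le_mul_of_nonneg_left this hA
          _ = _ := by ring
    · rw [if_neg (by omega)]
      have hl : 2 < |2 ^ k * z.1| := by
        rw [abs_of_pos (by positivity)]
        have e1 : (2 : ℝ) ^ (n + 3) ≤ 2 ^ k := pow_le_pow_right₀ (by norm_num) (by omega)
        calc (2 : ℝ) = 2 ^ (n + 3) * ((1 / 4) * (1 / 2) ^ n) := by
              have e2 : (2 : ℝ) ^ (n + 3) * ((1 / 4) * (1 / 2) ^ n) = 2 * ((1 / 2) ^ n * 2 ^ n) := by ring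
              rw [e2, half_pow_mul]; norm_num
          _ ≤ 2 ^ k * ((1 / 4) * (1 / 2) ^ n) := mul_le_mul_of_nonneg_right e1 (by positivity)
          _ < 2 ^ k * z.1 := mul_lt_mul_of_pos_left h1 h2k
      rw [hX1, hX2, mu_zero hl.le, kap_zero hl]
      constructor <;> simp

end

/-- **Trajectories through a strip.** -/
theorem strip {f : ℝ → ℝ × ℝ} {v1 v2 : ℝ → ℝ} {m s lam b : ℝ}
    (hlam : 0 ≤ lam) (hb : 0 < b)
    (hd1 : ∀ t, HasDerivAt (fun t => (f t).1) (v1 t) t)
    (hd2 : ∀ t, HasDerivAt (fun t => (f t).2) (v2 t) t)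
    (hU : ∀ t ∈ Icc m s, b / 4 < (f t).1 → (f t).1 < b → |(f t).2| < (f t).1 →
      v1 t ≤ -(lam * (f t).1) ∧ 0 ≤ (f t).2 * v2 t)
    (h1 : b / 2 ≤ (f s).1) (h2 : |(f s).2| ≤ (f s).1 / 2) (h3 : ∀ t ∈ Ioc m s, (f t).1 < b) :
    ∀ t ∈ Icc m s, (f s).1 * Real.exp (lam * (s - t)) ≤ (f t).1 ∧ |(f t).2| ≤ |(f s).2| := by
  intro t0 ht0
  have hms : m ≤ s := ht0.1.trans ht0.2
  have c1 : Continuous (fun t => (f t).1) := continuous_iff_continuousAt.mpr fun t => (hd1 t).continuousAt
  have c2 : Continuous (fun t => (f t).2) := continuous_iff_continuousAt.mpr fun t => (hd2 t).continuousAt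
  set S : Set ℝ := {τ | (f s).1 * Real.exp (lam * τ) ≤ (f (s - τ)).1 ∧ |(f (s - τ)).2| ≤ |(f s).2|} with hS
  have hcl : IsClosed S := by
    apply IsClosed.inter
    · exact isClosed_le (by fun_prop) (c1.comp (by fun_prop))
    · exact isClosed_le ((c2.comp (by fun_prop : Continuous fun τ : ℝ => s - τ)).abs) continuous_const
  have hx0 : 0 < (f s).1 := by linarith
  have key : Icc (0 : ℝ) (s - m) ⊆ S := by
    refine IsClosed.Icc_subset_of_forall_exists_gt (hcl.inter isClosed_Icc) ?_ ?_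
    · refine ⟨?_, ?_⟩
      · simp
      · simp
    · rintro τ ⟨⟨hτ1, hτ2⟩, hτ0, hτm⟩ y hy
      have hy' : τ < y := hy
      have he1 : 1 ≤ Real.exp (lam * τ) := Real.one_le_exp (by positivity)
      have hX : (f s).1 ≤ (f (s - τ)).1 := by
        calc (f s).1 = (f s).1 * 1 := (mul_one _).symm
          _ ≤ (f s).1 * Real.exp (lam * τ) := mul_le_mul_of_nonneg_left he1 hx0.le
          _ ≤ _ := hτ1
      have hin : s - τ ∈ {t | b / 4 < (f t).1 ∧ (f t).1 < b ∧ |(f t).2| < (f t).1} := by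
        refine ⟨by linarith, h3 _ ⟨by linarith, by linarith⟩, ?_⟩
        calc |(f (s - τ)).2| ≤ |(f s).2| := hτ2
          _ ≤ (f s).1 / 2 := h2
          _ < (f (s - τ)).1 := by linarith
      have hop : IsOpen {t : ℝ | b / 4 < (f t).1 ∧ (f t).1 < b ∧ |(f t).2| < (f t).1} := by
        refine IsOpen.inter (isOpen_lt continuous_const c1) (IsOpen.inter (isOpen_lt c1 continuous_const) ?_)
        exact isOpen_lt c2.abs c1
      obtain ⟨ε, hε, hball⟩ := Metric.isOpen_iff.mp hop _ hin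
      set τ' : ℝ := min (min y (τ + ε / 2)) (s - m) with hτ'
      have g1 : τ < τ' := lt_min (lt_min hy' (by linarith)) hτm
      have g2 : τ' ≤ y := (min_le_left _ _).trans (min_le_left _ _)
      have g3 : τ' ≤ τ + ε / 2 := (min_le_left _ _).trans (min_le_right _ _)
      have g4 : τ' ≤ s - m := min_le_right _ _
      have hreg : ∀ r ∈ Icc τ τ', v1 (s - r) ≤ -(lam * (f (s - r)).1) ∧ 0 ≤ (f (s - r)).2 * v2 (s - r) := by
        intro r hr
        have hmem : s - r ∈ Metric.ball (s - τ) ε := by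
          rw [Metric.mem_ball, Real.dist_eq, abs_lt]
          constructor <;> linarith [hr.1, hr.2]
        obtain ⟨k1, k2, k3⟩ := hball hmem
        exact hU _ ⟨by linarith [hr.2], by linarith [hr.1]⟩ k1 k2 k3
      have hs1 : ∀ r, HasDerivAt (fun r => (f (s - r)).1) (-(v1 (s - r))) r := by
        intro r
        exact (hd1 (s - r)).comp_const_sub s r
      have hs2 : ∀ r, HasDerivAt (fun r => (f (s - r)).2) (-(v2 (s - r))) r := by
        intro r
        exact (hd2 (s - r)).comp_const_sub s r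
      refine ⟨τ', ⟨?_, ?_⟩, ⟨g1, g2⟩⟩
      · -- growth of x
        have hder : ∀ r, HasDerivAt (fun r => (f (s - r)).1 * Real.exp (-(lam * r)))
            (-(v1 (s - r)) * Real.exp (-(lam * r)) +
              (f (s - r)).1 * (Real.exp (-(lam * r)) * (-(lam * 1)))) r := by
          intro r
          exact (hs1 r).mul (((hasDerivAt_id r).const_mul lam).neg).exp
        have hmono : MonotoneOn (fun r => (f (s - r)).1 * Real.exp (-(lam * r))) (Icc τ τ') := by
          refine monotoneOn_of_deriv_nonneg (convex_Icc _ _)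
            (fun r _ => (hder r).continuousAt.continuousWithinAt)
            (fun r _ => (hder r).differentiableAt.differentiableWithinAt) fun r hr => ?_
          rw [interior_Icc] at hr
          rw [(hder r).deriv]
          have k := (hreg r ⟨hr.1.le, hr.2.le⟩).1
          have e := (Real.exp_pos (-(lam * r))).le
          have : -(v1 (s - r)) * Real.exp (-(lam * r)) +
              (f (s - r)).1 * (Real.exp (-(lam * r)) * (-(lam * 1))) =
              (-(v1 (s - r)) - lam * (f (s - r)).1) * Real.exp (-(lam * r)) := by ring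
          rw [this]
          exact mul_nonneg (by linarith) e
        have h5 := hmono ⟨le_rfl, g1.le⟩ ⟨g1.le, le_rfl⟩ g1.le
        simp only at h5
        have h6 : (f s).1 ≤ (f (s - τ)).1 * Real.exp (-(lam * τ)) := by
          rw [Real.exp_neg, ← div_eq_mul_inv, le_div_iff₀ (Real.exp_pos _)]
          exact hτ1
        have h7 := h6.trans h5
        rw [Real.exp_neg, ← div_eq_mul_inv, le_div_iff₀ (Real.exp_pos _)] at h7
        exact h7
      · -- decay of y
        have hder : ∀ r, HasDerivAt (fun r => (f (s - r)).2 ^ 2)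
            (2 * (f (s - r)).2 * (-(v2 (s - r)))) r := by
          intro r
          have := (hs2 r).fun_pow 2
          simpa using this
        have hanti : AntitoneOn (fun r => (f (s - r)).2 ^ 2) (Icc τ τ') := by
          refine antitoneOn_of_deriv_nonpos (convex_Icc _ _)
            (fun r _ => (hder r).continuousAt.continuousWithinAt)
            (fun r _ => (hder r).differentiableAt.differentiableWithinAt) fun r hr => ?_
          rw [interior_Icc] at hr
          rw [(hder r).deriv]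
          have k := (hreg r ⟨hr.1.le, hr.2.le⟩).2
          nlinarith only [k]
        have h5 := hanti ⟨le_rfl, g1.le⟩ ⟨g1.le, le_rfl⟩ g1.le
        simp only at h5
        exact (sq_le_sq.mp h5).trans hτ2
  have hmem : s - t0 ∈ Icc (0 : ℝ) (s - m) := ⟨by linarith [ht0.2], by linarith [ht0.1]⟩
  have := key hmem
  rw [hS] at this
  simp only [Set.mem_ofPred_eq, sub_sub_cancel] at this
  exact this

end Pool.Agent.Zk20.FR
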