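import Pool.Agent.Zk27.MB.Cut2
import Pool.Agent.Zk20.FR.C

/-! Facts on the flow, second version (for the front lemma; helper20) -/

set_option autoImplicit false

open MeasureTheory Set
open scoped ContDiff

namespace Pool.Agent.Zk20.FR

open Pool.Agent.Zk27.MB

/-- The averages. -/
noncomputable def cg (D : ℕ) (w₀ : ℝ × ℝ → ℝ) (Y : ℝ → ℝ × ℝ → ℝ × ℝ) (k : ℕ) (t : ℝ) : ℝ :=
  ∫ x, pg D k x * w₀ (Y t x)

section

variable {D n₀ N : ℕ} {α q : ℝ} {w₀ : ℝ × ℝ → ℝ} {Z Y : ℝ → ℝ × ℝ → ℝ × ℝ}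

lemma ode_fst2 (hF : IsFlow (Finset.Icc n₀ N) (Xg D α q) (pg D) w₀ Z Y) (t : ℝ) (p : ℝ × ℝ) :
    HasDerivAt (fun t => (Z t p).1)
      (∑ k ∈ Finset.Icc n₀ N, cg D w₀ Y k t * (Xg D α q k (Z t p)).1) t := by
  have h := (ContinuousLinearMap.fst ℝ ℝ ℝ).hasFDerivAt.comp_hasDerivAt t (hF.ode t p)
  have e : (ContinuousLinearMap.fst ℝ ℝ ℝ) (∑ k ∈ Finset.Icc n₀ N, (∫ x, pg D k x * w₀ (Y t x)) •
      Xg D α q k (Z t p)) = ∑ k ∈ Finset.Icc n₀ N, cg D w₀ Y k t * (Xg D α q k (Z t p)).1 := by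
    rw [map_sum]
    rfl
  rw [e] at h
  exact h

lemma ode_snd2 (hF : IsFlow (Finset.Icc n₀ N) (Xg D α q) (pg D) w₀ Z Y) (t : ℝ) (p : ℝ × ℝ) :
    HasDerivAt (fun t => (Z t p).2)
      (∑ k ∈ Finset.Icc n₀ N, cg D w₀ Y k t * (Xg D α q k (Z t p)).2) t := by
  have h := (ContinuousLinearMap.snd ℝ ℝ ℝ).hasFDerivAt.comp_hasDerivAt t (hF.ode t p)
  have e : (ContinuousLinearMap.snd ℝ ℝ ℝ) (∑ k ∈ Finset.Icc n₀ N, (∫ x, pg D k x * w₀ (Y t x)) •
      Xg D α q k (Z t p)) = ∑ k ∈ Finset.Icc n₀ N, cg D w₀ Y k t * (Xg D α q k (Z t p)).2 := by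
    rw [map_sum]
    rfl
  rw [e] at h
  exact h

lemma cg_bound (h01 : ∀ z, |w₀ z| ≤ 1) (k : ℕ) (t : ℝ) :
    |cg D w₀ Y k t| ≤ ∫ x, |pg D k x| := by
  have hi : Integrable (fun x => |pg D k x|) :=
    ((ph_cont (k / D) k).integrable_of_hasCompactSupport (ph_compact (k / D) k)).abs
  have hgoal : ‖∫ x, pg D k x * w₀ (Y t x)‖ ≤ ∫ x, |pg D k x| := by
    refine norm_integral_le_of_norm_le hi (Filter.Eventually.of_forall fun x => ?_)
    rw [Real.norm_eq_abs, abs_mul]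
    exact mul_le_of_le_one_right (abs_nonneg _) (h01 _)
  exact hgoal

/-- the right half-plane is invariant -/
lemma pos2 (hα : 0 ≤ α) (hq : 0 ≤ q) {K : ℝ} (hK : ∀ s, |kap s| ≤ K) (h01 : ∀ z, |w₀ z| ≤ 1)
    (hF : IsFlow (Finset.Icc n₀ N) (Xg D α q) (pg D) w₀ Z Y) {p : ℝ × ℝ} (hp : 0 < p.1) {t : ℝ}
    (ht : 0 ≤ t) : 0 < (Z t p).1 := by
  have hK0 : 0 ≤ K := (abs_nonneg _).trans (hK 0)
  set L : ℝ := ∑ k ∈ Finset.Icc n₀ N, (∫ x, |pg D k x|) *
    (α * q ^ k * (1 / 2) ^ k * (2 ^ (k / D) * K ^ 2 * 2 ^ k)) with hL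
  set x : ℝ → ℝ := fun t => (Z t p).1 with hx
  set x' : ℝ → ℝ := fun t => ∑ k ∈ Finset.Icc n₀ N, cg D w₀ Y k t * (Xg D α q k (Z t p)).1 with hx'
  have hder : ∀ t, HasDerivAt x (x' t) t := fun t => ode_fst2 hF t p
  have hbd : ∀ t, |x' t| ≤ L * |x t| := by
    intro t
    rw [hx', hL, Finset.sum_mul]
    refine (Finset.abs_sum_le_sum_abs _ _).trans (Finset.sum_le_sum fun k _ => ?_)
    rw [abs_mul, mul_assoc]
    refine mul_le_mul (cg_bound h01 k t) ?_ (abs_nonneg _) (integral_nonneg fun _ => abs_nonneg _)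
    unfold Xg Xf
    rw [Prod.smul_fst, smul_eq_mul, abs_mul, abs_of_nonneg (by positivity : 0 ≤ α * q ^ k * (1 / 2) ^ k)]
    calc α * q ^ k * (1 / 2) ^ k * |(cp (k / D) k V0 (Z t p)).1| ≤
          α * q ^ k * (1 / 2) ^ k * (2 ^ (k / D) * K ^ 2 * 2 ^ k * |(Z t p).1|) :=
          mul_le_mul_of_nonneg_left (cp_fst_le (k / D) k hK _) (by positivity)
      _ = α * q ^ k * (1 / 2) ^ k * (2 ^ (k / D) * K ^ 2 * 2 ^ k) * |x t| := by rw [hx]; ring
  have hmono : Monotone (fun t => x t ^ 2 * Real.exp (2 * L * t)) := by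
    have hd : ∀ t, HasDerivAt (fun t => x t ^ 2 * Real.exp (2 * L * t))
        (2 * x t * x' t * Real.exp (2 * L * t) + x t ^ 2 * (Real.exp (2 * L * t) * (2 * L))) t := by
      intro t
      have h1 : HasDerivAt (fun t => x t ^ 2) (2 * x t * x' t) t := by
        have h9 := (hder t).fun_pow 2
        simpa using h9
      have h2 : HasDerivAt (fun t => Real.exp (2 * L * t)) (Real.exp (2 * L * t) * (2 * L)) t := by
        have h3 : HasDerivAt (fun t : ℝ => 2 * L * t) (2 * L) t := by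
          simpa using (hasDerivAt_id t).const_mul (2 * L)
        exact h3.exp
      exact h1.mul h2
    refine monotone_of_deriv_nonneg (fun t => (hd t).differentiableAt) fun t => ?_
    rw [(hd t).deriv]
    have h1 : -(L * |x t|) ≤ x' t ∧ x' t ≤ L * |x t| := abs_le.mp (hbd t)
    have h2 : 0 ≤ 2 * x t * x' t + x t ^ 2 * (2 * L) := by
      rcases le_total 0 (x t) with h | h
      · rw [abs_of_nonneg h] at h1
        nlinarith only [h1.1, h]
      · rw [abs_of_nonpos h] at h1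
        nlinarith only [h1.2, h]
    have h3 := (Real.exp_pos (2 * L * t)).le
    have : 2 * x t * x' t * Real.exp (2 * L * t) + x t ^ 2 * (Real.exp (2 * L * t) * (2 * L)) =
        (2 * x t * x' t + x t ^ 2 * (2 * L)) * Real.exp (2 * L * t) := by ring
    rw [this]
    exact mul_nonneg h2 h3
  by_contra hcon
  push Not at hcon
  have hx0 : 0 < x 0 := by
    rw [hx]; simp only; rw [hF.zero]; exact hp
  have hcont : ContinuousOn x (Icc 0 t) := fun s _ => (hder s).continuousAt.continuousWithinAt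
  obtain ⟨t1, ht1, h1⟩ := intermediate_value_Icc' ht hcont ⟨hcon, hx0.le⟩
  have := hmono ht1.1
  simp only [h1] at this
  have h2 : 0 < x 0 ^ 2 * Real.exp (2 * L * 0) := by positivity
  simp only [ne_eq, OfNat.ofNat_ne_zero, not_false_eq_true, zero_pow, zero_mul] at this
  linarith

/-- no mass on the left -/
lemma w_left2 (hα : 0 ≤ α) (hq : 0 ≤ q) {K : ℝ} (hK : ∀ s, |kap s| ≤ K)
    (h01 : ∀ z, |w₀ z| ≤ 1) (hs : ∀ z, w₀ z ≠ 0 → 0 < z.1)
    (hF : IsFlow (Finset.Icc n₀ N) (Xg D α q) (pg D) w₀ Z Y) {z : ℝ × ℝ} (hz : z.1 ≤ 0) {t : ℝ}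
    (ht : 0 ≤ t) : w₀ (Y t z) = 0 := by
  by_contra hne
  have h1 := hs _ hne
  have h2 := pos2 hα hq hK h01 hF (p := Y t z) h1 ht
  rw [hF.left] at h2
  linarith

lemma cg_eq (hα : 0 ≤ α) (hq : 0 ≤ q) {K : ℝ} (hK : ∀ s, |kap s| ≤ K)
    (h01 : ∀ z, |w₀ z| ≤ 1) (hs : ∀ z, w₀ z ≠ 0 → 0 < z.1)
    (hF : IsFlow (Finset.Icc n₀ N) (Xg D α q) (pg D) w₀ Z Y) (k : ℕ) {t : ℝ} (ht : 0 ≤ t) :
    cg D w₀ Y k t = ∫ z : ℝ × ℝ, 4 ^ k * phi (2 ^ k * z.1, 2 ^ k * z.2) * w₀ (Y t z) := by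
  unfold cg pg
  congr 1
  funext z
  rcases le_or_gt z.1 0 with h | h
  · rw [w_left2 hα hq hK h01 hs hF h ht, mul_zero, mul_zero]
  · rw [ph_right (k / D) k h]

lemma cg_abs (hα : 0 ≤ α) (hq : 0 ≤ q) {K : ℝ} (hK : ∀ s, |kap s| ≤ K)
    (h01 : ∀ z, |w₀ z| ≤ 1) (hs : ∀ z, w₀ z ≠ 0 → 0 < z.1)
    (hF : IsFlow (Finset.Icc n₀ N) (Xg D α q) (pg D) w₀ Z Y) (k : ℕ) {t : ℝ} (ht : 0 ≤ t) :
    |cg D w₀ Y k t| ≤ 1 := by
  rw [cg_eq hα hq hK h01 hs hF k ht, ← phi_int_scaled k, ← Real.norm_eq_abs]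
  refine norm_integral_le_of_norm_le (phi_integrable_scaled k)
    (Filter.Eventually.of_forall fun z => ?_)
  have h0 : 0 ≤ 4 ^ k * phi (2 ^ k * z.1, 2 ^ k * z.2) := mul_nonneg (by positivity) (phi_nonneg _)
  rw [Real.norm_eq_abs, abs_mul, abs_of_nonneg h0]
  exact mul_le_of_le_one_right h0 (h01 _)

lemma cg_half (hα : 0 ≤ α) (hq : 0 ≤ q) {K : ℝ} (hK : ∀ s, |kap s| ≤ K)
    (h01 : ∀ z, |w₀ z| ≤ 1) (hw : Continuous w₀) (hs : ∀ z, w₀ z ≠ 0 → 0 < z.1)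
    (hF : IsFlow (Finset.Icc n₀ N) (Xg D α q) (pg D) w₀ Z Y) (k : ℕ) {t : ℝ} (ht : 0 ≤ t)
    (h : ∀ z : ℝ × ℝ, 1 < 2 ^ k * z.1 → 2 ^ k * z.1 < 3 / 2 → |2 ^ k * z.2| < 1 / 4 →
      1 / 2 ≤ w₀ (Y t z)) : 1 / 2 ≤ cg D w₀ Y k t := by
  rw [cg_eq hα hq hK h01 hs hF k ht]
  have e : (1 : ℝ) / 2 = ∫ z : ℝ × ℝ, 4 ^ k * phi (2 ^ k * z.1, 2 ^ k * z.2) * (1 / 2) := by
    rw [integral_mul_const, phi_int_scaled, one_mul]
  rw [e]
  have hYc : Continuous (fun z => w₀ (Y t z)) := hw.comp (hF.smoothYt t).continuous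
  refine integral_mono ((phi_integrable_scaled k).mul_const _) ?_ fun z => ?_
  · refine (phi_integrable_scaled k).mul_bdd (c := 1) hYc.aestronglyMeasurable
      (Filter.Eventually.of_forall fun z => ?_)
    rw [Real.norm_eq_abs]
    exact h01 _
  · show 4 ^ k * phi (2 ^ k * z.1, 2 ^ k * z.2) * (1 / 2) ≤
      4 ^ k * phi (2 ^ k * z.1, 2 ^ k * z.2) * w₀ (Y t z)
    by_cases hp : phi (2 ^ k * z.1, 2 ^ k * z.2) = 0
    · rw [hp, mul_zero, zero_mul, zero_mul]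
    · obtain ⟨h1, h2, h3⟩ := phi_supp hp
      exact mul_le_mul_of_nonneg_left (h z h1 h2 h3) (mul_nonneg (by positivity) (phi_nonneg _))

/-- displacement -/
lemma displacement2 {Λ : ℝ} (hΛ : ∀ n : ℕ, (8 : ℝ) ^ (n / D) ≤ Λ ^ n) (hα : 0 ≤ α) (hq : 0 ≤ q)
    (hqΛ : q * Λ < 2) {K : ℝ} (hK : ∀ s, |kap s| ≤ K)
    (h01 : ∀ z, |w₀ z| ≤ 1) (hs : ∀ z, w₀ z ≠ 0 → 0 < z.1)
    (hF : IsFlow (Finset.Icc n₀ N) (Xg D α q) (pg D) w₀ Z Y) (p : ℝ × ℝ) {s : ℝ} (h0 : 0 ≤ s) :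
    ‖Z s p - p‖ ≤ α * (2 * K) * (1 - q * Λ / 2)⁻¹ * s := by
  have hK0 : 0 ≤ K := (abs_nonneg _).trans (hK 0)
  have hΛ1 : 1 ≤ Λ := by
    have := hΛ 1
    rw [pow_one] at this
    exact (one_le_pow₀ (by norm_num)).trans this
  have key := Convex.norm_image_sub_le_of_norm_hasDerivWithin_le (f := fun t => Z t p)
    (f' := fun t => ∑ k ∈ Finset.Icc n₀ N, (∫ x, pg D k x * w₀ (Y t x)) • Xg D α q k (Z t p))
    (C := α * (2 * K) * (1 - q * Λ / 2)⁻¹) (s := Icc 0 s) (x := 0) (y := s)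
    (fun t _ => (hF.ode t p).hasDerivWithinAt) ?_ (convex_Icc 0 s) ⟨le_rfl, h0⟩ ⟨h0, le_rfl⟩
  · simp only [hF.zero, sub_zero, Real.norm_eq_abs, abs_of_nonneg h0] at key
    exact key
  · intro t ht
    refine (norm_sum_le _ _).trans ?_
    have hterm : ∀ k ∈ Finset.Icc n₀ N, ‖(∫ x, pg D k x * w₀ (Y t x)) • Xg D α q k (Z t p)‖ ≤
        α * (2 * K) * (q * Λ / 2) ^ k := by
      intro k _
      rw [norm_smul]
      have h1 : ‖∫ x, pg D k x * w₀ (Y t x)‖ ≤ 1 := by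
        rw [Real.norm_eq_abs]
        exact cg_abs hα hq hK h01 hs hF k ht.1
      have h2 : ‖Xg D α q k (Z t p)‖ ≤ α * (2 * K) * (q * Λ / 2) ^ k := by
        unfold Xg Xf
        rw [norm_smul, Real.norm_eq_abs, abs_of_nonneg (by positivity)]
        have h8 : (2 : ℝ) ^ (k / D) ≤ Λ ^ k :=
          (pow_le_pow_left₀ (by norm_num) (by norm_num) _).trans (hΛ k)
        calc α * q ^ k * (1 / 2) ^ k * ‖cp (k / D) k V0 (Z t p)‖ ≤
              α * q ^ k * (1 / 2) ^ k * (2 ^ (k / D) * (2 * K)) :=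
              mul_le_mul_of_nonneg_left (cp_norm_le (k / D) k hK _) (by positivity)
          _ ≤ α * q ^ k * (1 / 2) ^ k * (Λ ^ k * (2 * K)) :=
              mul_le_mul_of_nonneg_left (mul_le_mul_of_nonneg_right h8 (by positivity)) (by positivity)
          _ = α * (2 * K) * (q * Λ / 2) ^ k := by
              rw [div_pow, div_pow, one_pow, mul_pow]; ring
      calc _ ≤ 1 * (α * (2 * K) * (q * Λ / 2) ^ k) :=
            mul_le_mul h1 h2 (norm_nonneg _) (by norm_num)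
        _ = _ := one_mul _
    refine (Finset.sum_le_sum hterm).trans ?_
    rw [← Finset.mul_sum]
    refine mul_le_mul_of_nonneg_left ?_ (by positivity)
    have hsum : Summable (fun k : ℕ => (q * Λ / 2) ^ k) :=
      summable_geometric_of_lt_one (by positivity) (by linarith)
    refine (hsum.sum_le_tsum _ (fun k _ => by positivity)).trans ?_
    rw [tsum_geometric_of_lt_one (by positivity) (by linarith)]

end

/-- the weights of the scales in the strip number `n` -/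
noncomputable def gh (K q : ℝ) (n k : ℕ) : ℝ :=
  if k ≤ n then q ^ k / 2 else if k ≤ n + 2 then -(K * q ^ k) else 0

lemma sum_gh {K q : ℝ} (hK0 : 0 ≤ K) (hq1 : 1 < q) (hqK : 4 * (K * (1 + q) + 1) ≤ 1 / (q - 1))
    {n₀ n N : ℕ} (hn : n₀ ≤ n) (hN : n ≤ N) (hbig : 2 * q ^ n₀ ≤ q ^ (n + 1)) :
    q ^ n ≤ ∑ k ∈ Finset.Icc n₀ N, gh K q n k := by
  have hq0 : 0 < q := by linarith
  have e1 : ∀ k ∈ Finset.Icc n₀ N, (1 / 2) * (if k ≤ n then q ^ k else 0) -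
      (if k = n + 1 then K * q ^ k else 0)
      - (if k = n + 2 then K * q ^ k else 0) ≤ gh K q n k := by
    intro k _
    unfold gh
    have hKk : 0 ≤ K * q ^ k := by positivity
    split_ifs <;> first | (exfalso; omega) | linarith
  refine le_trans ?_ (Finset.sum_le_sum e1)
  rw [Finset.sum_sub_distrib, Finset.sum_sub_distrib, ← Finset.mul_sum]
  have s1 : ∑ k ∈ Finset.Icc n₀ N, (if k ≤ n then q ^ k else 0) = (q ^ (n + 1) - q ^ n₀) / (q - 1) := by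
    rw [← Finset.sum_filter]
    have : (Finset.Icc n₀ N).filter (fun k => k ≤ n) = Finset.Ico n₀ (n + 1) := by
      ext k
      simp only [Finset.mem_filter, Finset.mem_Icc, Finset.mem_Ico]
      omega
    rw [this, geom_sum_Ico (by linarith) (by omega)]
  have s2 : ∀ m : ℕ, ∑ k ∈ Finset.Icc n₀ N, (if k = m then K * q ^ k else 0) ≤ K * q ^ m := by
    intro m
    rw [Finset.sum_ite_eq' (Finset.Icc n₀ N) m]
    split_ifs
    · exact le_rfl
    · positivity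
  rw [s1]
  have h1 := s2 (n + 1)
  have h2 := s2 (n + 2)
  have hq10 : 0 < q - 1 := by linarith
  have hP : 0 < q ^ (n + 1) := by positivity
  have h3 : q ^ (n + 1) / 2 / (q - 1) ≤ (q ^ (n + 1) - q ^ n₀) / (q - 1) :=
    div_le_div_of_nonneg_right (by linarith) hq10.le
  have h4 : 2 * (q ^ (n + 1) * (K * (1 + q) + 1)) ≤ q ^ (n + 1) / 2 / (q - 1) := by
    have : q ^ (n + 1) / 2 / (q - 1) = q ^ (n + 1) / 2 * (1 / (q - 1)) := by
      rw [mul_one_div]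
    rw [this]
    calc 2 * (q ^ (n + 1) * (K * (1 + q) + 1)) = q ^ (n + 1) / 2 * (4 * (K * (1 + q) + 1)) := by ring
      _ ≤ _ := mul_le_mul_of_nonneg_left hqK (by positivity)
  have h5 : q ^ n ≤ q ^ (n + 1) := pow_le_pow_right₀ hq1.le (by omega)
  have h6 : q ^ (n + 2) = q ^ (n + 1) * q := by ring
  rw [h6] at h2
  have e9 : q ^ (n + 1) * (K * (1 + q) + 1) = K * q ^ (n + 1) + K * (q ^ (n + 1) * q) + q ^ (n + 1) := by
    ring
  linarith

section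

variable {M : ℕ} {α q : ℝ}

/-- each term of the field in the strip -/
lemma term_strip2 (hα : 0 ≤ α) (hq : 0 ≤ q) {K : ℝ} (hK : ∀ s, |kap s| ≤ K) {n k : ℕ} {c : ℝ}
    (hc1 : |c| ≤ 1) (hc : k ≤ n → 1 / 2 ≤ c) {z : ℝ × ℝ} (h1 : (1 / 4) * (1 / 2) ^ n < z.1)
    (h2 : z.1 < (1 / 2) ^ n) (h3 : |z.2| < z.1) :
    c * (Xf M α q k z).1 ≤ -(α * gh K q n k * z.1) ∧
      α * gh K q n k * z.2 ^ 2 ≤ z.2 * (c * (Xf M α q k z).2) := by
  have hK0 : 0 ≤ K := (abs_nonneg _).trans (hK 0)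
  have hz : 0 < z.1 := lt_trans (by positivity) h1
  have h2k : (0 : ℝ) < 2 ^ k := by positivity
  have hhk : (0 : ℝ) < (1 / 2) ^ k := by positivity
  have hX : Xf M α q k z = (α * q ^ k * (1 / 2) ^ k) • V0 (2 ^ k * z.1, 2 ^ k * z.2) := by
    unfold Xf; rw [cp_right M k hz]
  have hX1 : (Xf M α q k z).1 = α * q ^ k * (1 / 2) ^ k * (-(mu (2 ^ k * z.1) * kap (2 ^ k * z.2))) := by
    rw [hX]; rfl
  have hX2 : (Xf M α q k z).2 = α * q ^ k * (1 / 2) ^ k * (kap (2 ^ k * z.1) * mu (2 ^ k * z.2)) := by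
    rw [hX]; rfl
  have hhalf := half_pow_mul k
  unfold gh
  rcases le_or_gt k n with hkn | hkn
  · rw [if_pos hkn, hX1, hX2]
    have hch := hc hkn
    have hsm : 2 ^ k * z.1 < 1 := by
      have : (2 : ℝ) ^ k * (1 / 2) ^ n ≤ 1 := by
        calc (2 : ℝ) ^ k * (1 / 2) ^ n ≤ 2 ^ k * (1 / 2) ^ k :=
              mul_le_mul_of_nonneg_left (pow_le_pow_of_le_one (by norm_num) (by norm_num) hkn) h2k.le
          _ = 1 := by rw [mul_comm]; exact hhalf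
      calc 2 ^ k * z.1 < 2 ^ k * (1 / 2) ^ n := mul_lt_mul_of_pos_left h2 h2k
        _ ≤ 1 := this
    have a1 : |2 ^ k * z.1| < 1 := by rw [abs_of_pos (by positivity)]; exact hsm
    have a2 : |2 ^ k * z.2| < 1 := by
      rw [abs_mul, abs_of_pos h2k]
      exact lt_trans (mul_lt_mul_of_pos_left h3 h2k) hsm
    rw [mu_one a1.le, mu_one a2.le, kap_one a1, kap_one a2]
    have hA : 0 ≤ α * q ^ k := by positivity
    constructor
    · calc c * (α * q ^ k * (1 / 2) ^ k * -(2 ^ k * z.1 * 1)) =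
            -(c * (α * q ^ k * z.1)) * ((1 / 2) ^ k * 2 ^ k) := by ring
        _ = -(c * (α * q ^ k * z.1)) := by rw [hhalf, mul_one]
        _ ≤ -(1 / 2 * (α * q ^ k * z.1)) :=
            neg_le_neg (mul_le_mul_of_nonneg_right hch (by positivity))
        _ = _ := by ring
    · calc α * (q ^ k / 2) * z.2 ^ 2 = 1 / 2 * (α * q ^ k * z.2 ^ 2) := by ring
        _ ≤ c * (α * q ^ k * z.2 ^ 2) := mul_le_mul_of_nonneg_right hch (by positivity)
        _ = c * (α * q ^ k * z.2 ^ 2) * ((1 / 2) ^ k * 2 ^ k) := by rw [hhalf, mul_one]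
        _ = z.2 * (c * (α * q ^ k * (1 / 2) ^ k * (1 * (2 ^ k * z.2)))) := by ring
  · rw [if_neg (by omega)]
    rcases le_or_gt k (n + 2) with hk2 | hk2
    · rw [if_pos hk2, hX1, hX2]
      have b1 : |mu (2 ^ k * z.1) * kap (2 ^ k * z.2)| ≤ 2 ^ k * z.1 * K := by
        rw [abs_mul]
        refine mul_le_mul ?_ (hK _) (abs_nonneg _) (by positivity)
        refine (abs_mu_le _).trans (le_of_eq ?_)
        rw [abs_of_pos (by positivity)]
      have b2 : |z.2 * (kap (2 ^ k * z.1) * mu (2 ^ k * z.2))| ≤ 2 ^ k * z.2 ^ 2 * K := by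
        rw [abs_mul, abs_mul]
        have c1 : |mu (2 ^ k * z.2)| ≤ 2 ^ k * |z.2| := by
          refine (abs_mu_le _).trans (le_of_eq ?_)
          rw [abs_mul, abs_of_pos h2k]
        calc |z.2| * (|kap (2 ^ k * z.1)| * |mu (2 ^ k * z.2)|) ≤ |z.2| * (K * (2 ^ k * |z.2|)) := by
              refine mul_le_mul_of_nonneg_left ?_ (abs_nonneg _)
              exact mul_le_mul (hK _) c1 (abs_nonneg _) hK0
          _ = 2 ^ k * |z.2| ^ 2 * K := by ring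
          _ = 2 ^ k * z.2 ^ 2 * K := by rw [sq_abs]
      have hA : 0 ≤ α * q ^ k * (1 / 2) ^ k := by positivity
      have k1 : |c * (mu (2 ^ k * z.1) * kap (2 ^ k * z.2))| ≤ 2 ^ k * z.1 * K := by
        rw [abs_mul]
        calc |c| * |mu (2 ^ k * z.1) * kap (2 ^ k * z.2)| ≤ 1 * (2 ^ k * z.1 * K) :=
              mul_le_mul hc1 b1 (abs_nonneg _) (by norm_num)
          _ = _ := one_mul _
      have k2 : |c * (z.2 * (kap (2 ^ k * z.1) * mu (2 ^ k * z.2)))| ≤ 2 ^ k * z.2 ^ 2 * K := by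
        rw [abs_mul]
        calc |c| * |z.2 * (kap (2 ^ k * z.1) * mu (2 ^ k * z.2))| ≤ 1 * (2 ^ k * z.2 ^ 2 * K) :=
              mul_le_mul hc1 b2 (abs_nonneg _) (by norm_num)
          _ = _ := one_mul _
      have d1 := (abs_le.mp k1).1
      have d2 := (abs_le.mp k2).1
      constructor
      · calc c * (α * q ^ k * (1 / 2) ^ k * -(mu (2 ^ k * z.1) * kap (2 ^ k * z.2))) =
              (α * q ^ k * (1 / 2) ^ k) * -(c * (mu (2 ^ k * z.1) * kap (2 ^ k * z.2))) := by ring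
          _ ≤ (α * q ^ k * (1 / 2) ^ k) * (2 ^ k * z.1 * K) :=
              mul_le_mul_of_nonneg_left (by linarith) hA
          _ = α * q ^ k * z.1 * K * ((1 / 2) ^ k * 2 ^ k) := by ring
          _ = -(α * -(K * q ^ k) * z.1) := by rw [hhalf]; ring
      · calc α * -(K * q ^ k) * z.2 ^ 2 = (α * q ^ k * (1 / 2) ^ k) * (-(2 ^ k * z.2 ^ 2 * K)) := by
              have : (α * q ^ k * (1 / 2) ^ k) * (-(2 ^ k * z.2 ^ 2 * K)) =
                α * -(K * q ^ k) * z.2 ^ 2 * ((1 / 2) ^ k * 2 ^ k) := by ring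
              rw [this, hhalf, mul_one]
          _ ≤ (α * q ^ k * (1 / 2) ^ k) * (c * (z.2 * (kap (2 ^ k * z.1) * mu (2 ^ k * z.2)))) :=
              mul_le_mul_of_nonneg_left d2 hA
          _ = _ := by ring
    · rw [if_neg (by omega)]
      have hl : 2 < |2 ^ k * z.1| := by
        rw [abs_of_pos (by positivity)]
        have e1 : (2 : ℝ) ^ (n + 3) ≤ 2 ^ k := pow_le_pow_right₀ (by norm_num) (by omega)
        calc (2 : ℝ) = 2 ^ (n + 3) * ((1 / 4) * (1 / 2) ^ n) := by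
              have e2 : (2 : ℝ) ^ (n + 3) * ((1 / 4) * (1 / 2) ^ n) = 2 * ((1 / 2) ^ n * 2 ^ n) := by ring
              rw [e2, half_pow_mul]; norm_num
          _ ≤ 2 ^ k * ((1 / 4) * (1 / 2) ^ n) := mul_le_mul_of_nonneg_right e1 (by positivity)
          _ < 2 ^ k * z.1 := mul_lt_mul_of_pos_left h1 h2k
      rw [hX1, hX2, mu_zero hl.le, kap_zero hl]
      constructor <;> simp

end

end Pool.Agent.Zk20.FR
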